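import Pool.Agent.W952.Sat.MainN

set_option autoImplicit false
set_option linter.unusedSectionVars false

/-! Families of branching programs of linear length for tautologies. -/

namespace Pool.Agent.W952.Sat

/-- tautologies -/
def Expr.Tautology (e : Expr) : Prop := ∀ v : ℕ → Bool, e.eval v = true

theorem taut_neg (e : Expr) : (Expr.neg e).Tautology ↔ ¬ e.Satisfiable := by
  unfold Expr.Tautology Expr.Satisfiable
  simp only [Expr.eval, not_exists]
  constructor
  · intro h v hv
    have := h v
    rw [hv] at this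
    cases this
  · intro h v
    have := h v
    cases hv : e.eval v with
    | true => exact absurd hv this
    | false => rfl

/-- a node of the program that knows the first letter and answers the contrary -/
def pnode {n : ℕ} (hn : 0 < n) {S : Type} (a : (Fin (n + 1) × (Sym → S)) ⊕ Bool) :
    (Fin n × (Sym → S)) ⊕ Bool :=
  match a with
  | Sum.inl (i, nxt) =>
    if h : i = 0 then Sum.inl (⟨0, hn⟩, fun _ => nxt Sym.neg) else Sum.inl (i.pred h, nxt)
  | Sum.inr b => Sum.inr (!b)

/-- the program that knows the first letter and answers the contrary -/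
def pre {n : ℕ} (hn : 0 < n) (P : Prog (n + 1)) : Prog n where
  Node := P.Node
  start := P.start
  act := fun s => pnode hn (P.act s)

/-- one step -/
def stp {n : ℕ} {S : Type} (w : Fin n → Sym) (s : S) (a : (Fin n × (Sym → S)) ⊕ Bool) : S :=
  match a with
  | Sum.inl (i, nxt) => nxt (w i)
  | Sum.inr _ => s

theorem after_succ {n : ℕ} (P : Prog n) (w : Fin n → Sym) (t : ℕ) :
    P.after w (t + 1) = stp w (P.after w t) (P.act (P.after w t)) := by
  rw [Prog.after]
  rcases P.act (P.after w t) with ⟨i, nxt⟩ | b <;> rfl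

theorem stp_pnode {n : ℕ} (hn : 0 < n) {S : Type} (w : Fin n → Sym) (s : S)
    (a : (Fin (n + 1) × (Sym → S)) ⊕ Bool) :
    stp w s (pnode hn a) = stp (Fin.cons Sym.neg w) s a := by
  rcases a with ⟨i, nxt⟩ | b
  · by_cases h : i = 0
    · subst h
      simp [pnode, stp]
    · obtain ⟨j, rfl⟩ := Fin.exists_succ_eq.mpr h
      simp [pnode, stp]
  · rfl

theorem pre_after {n : ℕ} (hn : 0 < n) (P : Prog (n + 1)) (w : Fin n → Sym) (t : ℕ) :
    (pre hn P).after w t = P.after (Fin.cons Sym.neg w) t := by
  induction t with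
  | zero => rfl
  | succ t ih =>
    rw [after_succ, after_succ, ← stp_pnode hn, ← ih]
    rfl

theorem pre_answers {n : ℕ} (hn : 0 < n) (P : Prog (n + 1)) (w : Fin n → Sym) (t : ℕ) (b : Bool) :
    (pre hn P).Answers w t b ↔ P.Answers (Fin.cons Sym.neg w) t (!b) := by
  unfold Prog.Answers
  rw [pre_after]
  show pnode hn (P.act (P.after (Fin.cons Sym.neg w) t)) = Sum.inr b ↔ _
  rcases P.act (P.after (Fin.cons Sym.neg w) t) with ⟨i, nxt⟩ | b'
  · simp only [pnode]
    constructor
    · intro h
      split_ifs at h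
    · intro h
      cases h
  · simp only [pnode, Sum.inr.injEq]
    cases b <;> cases b' <;> simp

theorem word_neg {n : ℕ} (e : Expr) (h : e.code.length = n)
    (h' : (Expr.neg e).code.length = n + 1) :
    word (Expr.neg e) h' = Fin.cons Sym.neg (word e h) := by
  funext i
  refine Fin.cases ?_ (fun j => ?_) i
  · simp [word, Expr.code]
  · simp [word, Expr.code]

theorem Prog.after_mono {n : ℕ} (P : Prog n) (w : Fin n → Sym) (t s : ℕ) (b : Bool)
    (h : P.Answers w t b) : P.Answers w (t + s) b := by
  induction s with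
  | zero => exact h
  | succ s ih =>
    unfold Prog.Answers at ih ⊢
    rw [← add_assoc, Prog.after, ih]
    exact ih

theorem Prog.answers_mono {n : ℕ} (P : Prog n) (w : Fin n → Sym) {t s : ℕ} (hts : t ≤ s) (b : Bool)
    (h : P.Answers w t b) : P.Answers w s b := by
  obtain ⟨c, rfl⟩ := Nat.exists_eq_add_of_le hts
  exact P.after_mono w t c b h

theorem taut (k : ℕ) : ∃ D : ℕ, 0 < D ∧ ∀ n ≥ D, ∀ (I : Type) [Fintype I] [Nonempty I]
    (P : I → Prog n),
    (∀ i, Fintype.card (P i).Node < 2 ^ (n / D)) →
    (∀ (e : Expr) (h : e.code.length = n), ¬ e.Tautology →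
      ∀ i t, ¬ (P i).Answers (word e h) t true) →
    ∃ (e : Expr) (h : e.code.length = n), e.Tautology ∧
      2 ^ (n / D) * Nat.card {i : I // (P i).Answers (word e h) (k * n) true} < Nat.card I := by
  classical
  obtain ⟨D, hD, hmain⟩ := mainN (2 * k)
  refine ⟨2 * D + 2, by omega, ?_⟩
  intro n' hn' I _ _ P hP hP1
  obtain ⟨n, rfl⟩ : ∃ n, n' = n + 1 := ⟨n' - 1, by omega⟩
  have hn0 : 0 < n := by omega
  have hdiv : (n + 1) / (2 * D + 2) ≤ n / D := by
    calc (n + 1) / (2 * D + 2) ≤ (n + 1) / (2 * D) := Nat.div_le_div_left (by omega) (by omega)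
      _ ≤ (2 * n) / (2 * D) := Nat.div_le_div_right (by omega)
      _ = n / D := Nat.mul_div_mul_left _ _ (by norm_num)
  obtain ⟨e, h, he, hc⟩ := hmain n (by omega) I (fun i => pre hn0 (P i)) (by
    intro i
    exact lt_of_lt_of_le (hP i) (Nat.pow_le_pow_right (by norm_num) hdiv)) (by
    intro e h he i t hans
    rw [pre_answers] at hans
    have h' : (Expr.neg e).code.length = n + 1 := by simp [Expr.code, h]
    rw [← word_neg e h h'] at hans
    exact hP1 _ h' (fun hT => (taut_neg e).mp hT he) i t hans)
  have h' : (Expr.neg e).code.length = n + 1 := by simp [Expr.code, h]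
  refine ⟨Expr.neg e, h', (taut_neg e).mpr he, ?_⟩
  refine lt_of_le_of_lt (Nat.mul_le_mul (Nat.pow_le_pow_right (by norm_num) hdiv) ?_) hc
  have h8 : ∀ i, (P i).Answers (word (Expr.neg e) h') (k * (n + 1)) true →
      (pre hn0 (P i)).Answers (word e h) (2 * k * n) false := by
    intro i hi
    rw [word_neg e h h'] at hi
    rw [pre_answers]
    refine (P i).answers_mono _ ?_ _ hi
    have : k * 1 ≤ k * n := Nat.mul_le_mul_left _ hn0
    calc k * (n + 1) = k * n + k * 1 := by ring
      _ ≤ k * n + k * n := by omega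
      _ = 2 * k * n := by ring
  apply Nat.card_le_card_of_injective (fun i : {i : I //
    (P i).Answers (word (Expr.neg e) h') (k * (n + 1)) true} => (⟨i.1, h8 i.1 i.2⟩ :
      {i : I // (pre hn0 (P i)).Answers (word e h) (2 * k * n) false}))
  intro i j hij
  simpa [Subtype.ext_iff] using hij

end Pool.Agent.W952.Sat
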