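import Mathlib.Data.Nat.Digits.Defs
import Mathlib.Data.Fintype.Card
import Mathlib.Data.List.OfFn
import Mathlib.Tactic.DeriveFintype

set_option autoImplicit false

/-! Boolean expressions, their encoding as words, and branching programs that read words. -/

namespace Pool.Agent.W952.Sat

/-- Boolean expressions; `var i` is the variable with the index `i + 1`. -/
inductive Expr
  | var (i : ℕ)
  | neg (e : Expr)
  | and (e f : Expr)
  | or (e f : Expr)

/-- the value of an expression under the assignment `v` -/
def Expr.eval (v : ℕ → Bool) : Expr → Bool
  | .var i => v i
  | .neg e => !(e.eval v)
  | .and e f => e.eval v && f.eval v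
  | .or e f => e.eval v || f.eval v

/-- satisfiable expressions -/
def Expr.Satisfiable (e : Expr) : Prop := ∃ v : ℕ → Bool, e.eval v = true

/-- the alphabet: `¬`, `∧`, `∨`, `(`, `)`, `x`, `0`, `1` -/
inductive Sym
  | neg | and | or | lpar | rpar | x | zero | one
  deriving DecidableEq, Fintype

/-- the binary representation of a number, without leading zeros, the leading digit first -/
def bin (i : ℕ) : List Sym :=
  ((Nat.digits 2 i).reverse).map (fun d => if d = 1 then Sym.one else Sym.zero)

/-- The encoding of an expression: a variable is the letter `x` followed by its index in binary,
conjunctions and disjunctions are put into parentheses. -/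
def Expr.code : Expr → List Sym
  | .var i => Sym.x :: bin (i + 1)
  | .neg e => Sym.neg :: e.code
  | .and e f => Sym.lpar :: (e.code ++ (Sym.and :: (f.code ++ [Sym.rpar])))
  | .or e f => Sym.lpar :: (e.code ++ (Sym.or :: (f.code ++ [Sym.rpar])))

/-- Deterministic branching programs that read words of length `n`. In a node the program either
queries one position of the word and proceeds to a node that depends on the symbol there, or it
answers. There is no restriction on the order and on the repetition of the queries. -/
structure Prog (n : ℕ) where
  /-- the nodes -/
  Node : Type
  /-- there are finitely many of them -/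
  [fintype : Fintype Node]
  /-- the first node -/
  start : Node
  /-- what is done in a node -/
  act : Node → (Fin n × (Sym → Node)) ⊕ Bool

attribute [instance] Prog.fintype

/-- the node reached on the word `w` after `t` queries (or the node with the answer, if it is
reached earlier) -/
def Prog.after {n : ℕ} (P : Prog n) (w : Fin n → Sym) : ℕ → P.Node
  | 0 => P.start
  | t + 1 =>
    match P.act (P.after w t) with
    | Sum.inl (i, nxt) => nxt (w i)
    | Sum.inr _ => P.after w t

/-- on the word `w` the program gives the answer `b` after at most `t` queries -/
def Prog.Answers {n : ℕ} (P : Prog n) (w : Fin n → Sym) (t : ℕ) (b : Bool) : Prop :=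
  P.act (P.after w t) = Sum.inr b

/-- the encoding of `e`, if it has length `n`, as an input -/
def word {n : ℕ} (e : Expr) (h : e.code.length = n) (i : Fin n) : Sym :=
  e.code.get (i.cast h.symm)

end Pool.Agent.W952.Sat
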