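import Pool.Agent.W952.Sat.Temp
import Pool.Agent.W952.Core

set_option autoImplicit false
set_option linter.unusedSectionVars false

/-! The forms inside the satisfiability problem. -/

open Finset

namespace Pool.Agent.W952.Sat

open Pool.Agent.H822R5.LN Pool.Agent.W952.Mx Pool.Agent.W952.Fr Pool.Agent.W952.Ap
open Pool.Agent.H554R2.Sem

/-- names of the variables without free digits -/
abbrev NZ (p m q : ℕ) : Type :=
  ((Bool × (ZMod m × ZMod m)) ⊕ (Bool × (ZMod m × Fin (m / q + 1)))) ⊕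
    ((Bool × Fin q) ⊕ ((Bool × (Fin (p * p) × Fin q)) ⊕ (Bool × Fin (p * p))))

/-- the data for the names -/
structure Nm (p m q : ℕ) where
  /-- number of digits -/
  ℓ : ℕ
  /-- number of digits -/
  s : ℕ
  /-- digits of the names -/
  emb : NZ p m q ↪ (Fin ℓ → Bool)
  /-- digits of the tags -/
  tag : (Bool × Fin (p * p)) ↪ (Fin s → Bool)

section

variable {p m q : ℕ} [NeZero m] (E : Nm p m q)

/-- name -/
def Nm.a (i : NZ p m q) : List Bool := false :: List.ofFn (E.emb i)

/-- name -/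
def Nm.z (r : Bool) (t : Fin (p * p)) (b : Fin q → Bool) : List Bool :=
  true :: (List.ofFn (E.tag (r, t)) ++ List.ofFn b)

theorem Nm.a_inj {i j : NZ p m q} (h : E.a i = E.a j) : i = j := by
  unfold Nm.a at h
  exact E.emb.injective (List.ofFn_injective (List.cons.inj h).2)

theorem Nm.a_ne_z (i : NZ p m q) (r : Bool) (t : Fin (p * p)) (b : Fin q → Bool) :
    E.a i ≠ E.z r t b := by
  unfold Nm.a Nm.z
  intro h
  exact Bool.false_ne_true (List.cons.inj h).1

theorem Nm.z_inj {r r' : Bool} {t t' : Fin (p * p)} {b b' : Fin q → Bool}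
    (h : E.z r t b = E.z r' t' b') : (r = r' ∧ t = t') ∧ b = b' := by
  unfold Nm.z at h
  have h1 := List.append_inj (List.cons.inj h).2 (by simp)
  have h2 := E.tag.injective (List.ofFn_injective h1.1)
  exact ⟨Prod.mk.inj h2, List.ofFn_injective h1.2⟩

variable {N : ℕ}

/-- name with fixed digits -/
def Nm.A (i : NZ p m q) : List (Fin N ⊕ Bool) := (E.a i).map Sum.inr

/-- name with free digits -/
def Nm.Z (r : Bool) (t : Fin (p * p)) (b : Fin q → Fin N ⊕ Bool) : List (Fin N ⊕ Bool) :=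
  (true :: List.ofFn (E.tag (r, t))).map Sum.inr ++ List.ofFn b

theorem Nm.A_map (x : Fin N → Bool) (i : NZ p m q) : (E.A i).map (dv x) = E.a i := by
  unfold Nm.A
  rw [List.map_map]
  have : (dv x ∘ Sum.inr : Bool → Bool) = id := rfl
  rw [this, List.map_id]

theorem Nm.Z_map (x : Fin N → Bool) (r : Bool) (t : Fin (p * p)) (b : Fin q → Fin N ⊕ Bool) :
    (E.Z r t b).map (dv x) = E.z r t (fun i => dv x (b i)) := by
  unfold Nm.Z Nm.z
  rw [List.map_append, List.map_map, List.map_ofFn]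
  have : (dv x ∘ Sum.inr : Bool → Bool) = id := rfl
  rw [this, List.map_id]
  rfl

theorem Nm.A_len (i : NZ p m q) : (E.A (N := N) i).length = E.ℓ + 1 := by
  simp [Nm.A, Nm.a]

theorem Nm.Z_len (r : Bool) (t : Fin (p * p)) (b : Fin q → Fin N ⊕ Bool) :
    (E.Z r t b).length = E.s + q + 1 := by
  simp [Nm.Z]

/-- names of the selectors of rows -/
abbrev nP (r : Bool) (a : ZMod m × ZMod m) : NZ p m q := Sum.inl (Sum.inl (r, a))
/-- names of the selectors of words -/
abbrev nQ (r : Bool) (b : ZMod m) (h : Fin (m / q + 1)) : NZ p m q := Sum.inl (Sum.inr (r, (b, h)))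
/-- names of the selectors of places in a word -/
abbrev nS (r : Bool) (i : Fin q) : NZ p m q := Sum.inr (Sum.inl (r, i))
/-- names of the digits of the words read -/
abbrev nD (r : Bool) (t : Fin (p * p)) (i : Fin q) : NZ p m q :=
  Sum.inr (Sum.inr (Sum.inl (r, (t, i))))
/-- names of the bits read -/
abbrev nV (r : Bool) (t : Fin (p * p)) : NZ p m q := Sum.inr (Sum.inr (Sum.inr (r, t)))

/-- the number of a bit -/
noncomputable def ux (t : Fin (p * p)) (a b : ZMod m × ZMod m) : Fin (p * p * nr 1 m) :=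
  ix p 1 m (t, ((0, 0), (a, b)))

/-- the digits of the words in the table -/
noncomputable def wt (t : Fin (p * p)) (a : ZMod m × ZMod m) (b : ZMod m) (h : Fin (m / q + 1))
    (i : Fin q) : Fin (p * p * nr 1 m) ⊕ Bool :=
  if (h : ℕ) * q + i < m then Sum.inl (ux t a (b, (((h : ℕ) * q + i : ℕ) : ZMod m)))
  else Sum.inr false

/-- number of the word -/
def hi (hq : 0 < q) (b : ZMod m) : Fin (m / q + 1) :=
  ⟨b.val / q, Nat.lt_succ_of_le (Nat.div_le_div_right (ZMod.val_lt b).le)⟩

/-- place in the word -/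
def lo (hq : 0 < q) (b : ZMod m) : Fin q := ⟨b.val % q, Nat.mod_lt _ hq⟩

theorem wt_val (hq : 0 < q) (t : Fin (p * p)) (a b : ZMod m × ZMod m) :
    wt t a b.1 (hi hq b.2) (lo hq b.2) = Sum.inl (ux t a b) := by
  unfold wt hi lo
  have h1 : b.2.val / q * q + b.2.val % q = b.2.val := Nat.div_add_mod' _ _
  simp only [h1, ZMod.val_lt, if_true, ZMod.natCast_zmod_val]

variable (p m q) in
/-- the conditions on the variables -/
structure Good (l : ℕ) (hq : 0 < q) (x : Pt (p * p * nr 1 m)) (v : List Bool → Bool) : Prop where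
  ha : ∀ (r : Bool) (t : Fin (p * p)) (a : ZMod m × ZMod m) (b : ZMod m) (h : Fin (m / q + 1)),
    v (E.a (nP r a)) = true → v (E.a (nQ r b h)) = true →
      v (E.z r t (fun i => dv x (wt t a b h i))) = true
  hb : ∀ (r : Bool) (t : Fin (p * p)) (b : Fin q → Bool), v (E.z r t b) = true →
    ∀ i, v (E.a (nD r t i)) = b i
  hc : ∀ (r : Bool) (t : Fin (p * p)) (i : Fin q), v (E.a (nS r i)) = true →
    (v (E.a (nV r t)) = true ↔ v (E.a (nD r t i)) = true)
  hd : ∃ c : Conf p l 1,
    (∃ a : ZMod m × ZMod m, v (E.a (nP false a)) = true ∧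
      v (E.a (nP true (act2 m c.μ.1.2.1 a))) = true) ∧
    (∃ b : ZMod m × ZMod m, ((v (E.a (nQ false b.1 (hi hq b.2))) = true ∧
        v (E.a (nS false (lo hq b.2))) = true) ∧
      (v (E.a (nQ true (act2 m c.μ.1.2.2 b).1 (hi hq (act2 m c.μ.1.2.2 b).2))) = true ∧
        v (E.a (nS true (lo hq (act2 m c.μ.1.2.2 b).2))) = true))) ∧
    ∀ t, v (E.a (nV false t)) = c.bu t ∧ v (E.a (nV true t)) = c.bv t

theorem Good.read {l : ℕ} {hq : 0 < q} {x : Pt (p * p * nr 1 m)} {v : List Bool → Bool}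
    (G : Good p m q E l hq x v) (r : Bool) (t : Fin (p * p)) (a b : ZMod m × ZMod m)
    (h1 : v (E.a (nP r a)) = true) (h2 : v (E.a (nQ r b.1 (hi hq b.2))) = true)
    (h3 : v (E.a (nS r (lo hq b.2))) = true) : v (E.a (nV r t)) = x (ux t a b) := by
  have h4 := G.ha r t a b.1 (hi hq b.2) h1 h2
  have h5 := G.hb r t _ h4 (lo hq b.2)
  rw [wt_val hq] at h5
  have h6 := G.hc r t _ h3
  rw [h5] at h6
  simp only [dv] at h6
  rw [Bool.eq_iff_iff]
  exact h6

theorem good_iff {l : ℕ} (hq : 0 < q) (x : Pt (p * p * nr 1 m)) :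
    (∃ v, Good p m q E l hq x v) ↔ ∃ γ : Mu p l × Rest 1 m, Fm γ x ≠ 0 := by
  constructor
  · rintro ⟨v, G⟩
    obtain ⟨c, ⟨a, ha1, ha2⟩, ⟨b, ⟨hb1, hb2⟩, hb3, hb4⟩, hv⟩ := G.hd
    refine ⟨(c.μ, ((0, 0), (a, b))), ?_⟩
    have h1 : (fun t => x (ix p 1 m (t, ((0, 0), (a, b))))) = c.bu := by
      funext t
      rw [← (hv t).1, G.read E false t a b ha1 hb1 hb2]
      rfl
    have h2 : (fun t => x (ix p 1 m (t, mv c.μ ((0, 0), (a, b))))) = c.bv := by
      funext t
      rw [← (hv t).2, G.read E true t _ _ ha2 hb3 hb4]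
      have h0 : act2 1 c.μ.1.1 ((0 : ZMod 1), (0 : ZMod 1)) = (0, 0) := Subsingleton.elim _ _
      unfold ux mv
      simp only
      rw [h0]
    unfold Fm
    simp only
    rw [h1, h2]
    exact c.h
  · rintro ⟨⟨μ, ρ⟩, hγ⟩
    obtain ⟨κ, a, b⟩ := ρ
    have hκ : κ = (0, 0) := Subsingleton.elim _ _
    subst hκ
    classical
    -- addresses
    obtain ⟨aa, haa⟩ : ∃ f : Bool → ZMod m × ZMod m,
      f = fun r => if r then act2 m μ.1.2.1 a else a := ⟨_, rfl⟩
    obtain ⟨bb, hbb⟩ : ∃ f : Bool → ZMod m × ZMod m,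
      f = fun r => if r then act2 m μ.1.2.2 b else b := ⟨_, rfl⟩
    -- the values of the variables
    let vN : NZ p m q → Bool := fun i => match i with
      | Sum.inl (Sum.inl (r, a')) => decide (a' = aa r)
      | Sum.inl (Sum.inr (r, (b', h))) => decide (b' = (bb r).1 ∧ h = hi hq (bb r).2)
      | Sum.inr (Sum.inl (r, i)) => decide (i = lo hq (bb r).2)
      | Sum.inr (Sum.inr (Sum.inl (r, (t, i)))) =>
          dv x (wt t (aa r) (bb r).1 (hi hq (bb r).2) i)
      | Sum.inr (Sum.inr (Sum.inr (r, t))) => x (ux t (aa r) (bb r))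
    let vZ : Bool → Fin (p * p) → (Fin q → Bool) → Bool := fun r t w =>
      decide (w = fun i => dv x (wt t (aa r) (bb r).1 (hi hq (bb r).2) i))
    obtain ⟨v, hv1, hv2⟩ : ∃ v : List Bool → Bool, (∀ i, v (E.a i) = vN i) ∧
        ∀ r t w, v (E.z r t w) = vZ r t w := by
      refine ⟨fun ds => if h : ∃ i, E.a i = ds then vN h.choose else
        if h : ∃ y : Bool × Fin (p * p) × (Fin q → Bool), E.z y.1 y.2.1 y.2.2 = ds then
          vZ h.choose.1 h.choose.2.1 h.choose.2.2 else false, ?_, ?_⟩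
      · intro i
        have h : ∃ j, E.a j = E.a i := ⟨i, rfl⟩
        simp only [h, dif_pos]
        rw [E.a_inj h.choose_spec]
      · intro r t w
        have h0 : ¬ ∃ i, E.a i = E.z r t w := by
          rintro ⟨i, hi⟩
          exact E.a_ne_z _ _ _ _ hi
        have h : ∃ y : Bool × Fin (p * p) × (Fin q → Bool), E.z y.1 y.2.1 y.2.2 = E.z r t w :=
          ⟨(r, t, w), rfl⟩
        simp only [h0, dif_neg, h, dif_pos, not_false_eq_true]
        obtain ⟨⟨h1, h2⟩, h3⟩ := E.z_inj h.choose_spec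
        rw [h1, h2, h3]
    refine ⟨v, ?_, ?_, ?_, ?_⟩
    · intro r t a' b' h h1 h2
      rw [hv1] at h1 h2
      simp only [vN, decide_eq_true_eq] at h1 h2
      obtain ⟨h3, h4⟩ := h2
      rw [hv2]
      simp only [vZ, decide_eq_true_eq]
      rw [h1, h3, h4]
    · intro r t w h1 i
      rw [hv2] at h1
      simp only [vZ, decide_eq_true_eq] at h1
      rw [hv1, h1]
    · intro r t i h1
      rw [hv1] at h1
      simp only [vN, decide_eq_true_eq] at h1
      rw [hv1, hv1]
      simp only [vN]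
      rw [h1, wt_val hq]
      simp only [dv]
    · refine ⟨⟨μ, (0, 0), fun t => x (ux t a b),
        fun t => x (ux t (act2 m μ.1.2.1 a) (act2 m μ.1.2.2 b)), ?_⟩, ⟨a, ?_, ?_⟩,
        ⟨b, ⟨?_, ?_⟩, ?_, ?_⟩, ?_⟩
      · have h0 : act2 1 μ.1.1 ((0 : ZMod 1), (0 : ZMod 1)) = (0, 0) := Subsingleton.elim _ _
        unfold Fm mv at hγ
        simp only at hγ
        rw [h0] at hγ
        exact hγ
      all_goals try rw [hv1]
      all_goals try simp only [vN, haa, hbb, decide_eq_true_eq, if_true, Bool.false_eq_true,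
        if_false, and_self]
      intro t
      rw [hv1, hv1]
      simp only [vN, haa, hbb, if_true, Bool.false_eq_true, if_false, and_self]

end

end Pool.Agent.W952.Sat
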