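import Pool.Agent.W952.Sat.Phi

set_option autoImplicit false
set_option linter.unusedSectionVars false

/-! Branching programs of linear length for the satisfiability problem. -/

open Finset

namespace Pool.Agent.W952.Sat

open Pool.Agent.H822R5.LN Pool.Agent.W952.Mx Pool.Agent.W952.Fr Pool.Agent.W952.Ap
open Pool.Agent.H554R2.Sem Pool.Agent.H554R2.Coin

section

variable {n N : ℕ}

/-- the nodes of the Boolean program -/
def nd (hN : 0 < N) (W : Fin n → Sym ⊕ Fin N) {S : Type}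
    (a : (Fin n × (Sym → S)) ⊕ Bool) : (Fin N × (Bool → S)) ⊕ Bool :=
  match a with
  | Sum.inl (i, nxt) =>
    match W i with
    | Sum.inl s => Sum.inl (⟨0, hN⟩, fun _ => nxt s)
    | Sum.inr u => Sum.inl (u, fun b => nxt (dig b))
  | Sum.inr b => Sum.inr b

/-- the Boolean program -/
def toBP (hN : 0 < N) (W : Fin n → Sym ⊕ Fin N) (P : Prog n) : BP (Fin N) Bool where
  State := P.Node
  start := P.start
  node := fun s => nd hN W (P.act s)

theorem nd_inl (hN : 0 < N) (W : Fin n → Sym ⊕ Fin N) {S : Type}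
    (a : (Fin n × (Sym → S)) ⊕ Bool) (i : Fin n) (nxt : Sym → S) (h : a = Sum.inl (i, nxt)) :
    ∃ (u : Fin N) (nxt' : Bool → S), nd hN W a = Sum.inl (u, nxt') ∧
      ∀ x : Pt N, nxt' (x u) = nxt (sv x (W i)) := by
  subst h
  unfold nd
  rcases hW : W i with s | u
  · exact ⟨⟨0, hN⟩, fun _ => nxt s, by simp [hW], fun x => by simp [sv]⟩
  · exact ⟨u, fun b => nxt (dig b), by simp [hW], fun x => by simp [sv]⟩

theorem nd_inr (hN : 0 < N) (W : Fin n → Sym ⊕ Fin N) {S : Type}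
    (a : (Fin n × (Sym → S)) ⊕ Bool) (b : Bool) : nd hN W a = Sum.inr b ↔ a = Sum.inr b := by
  constructor
  · intro h
    cases a with
    | inl y =>
      obtain ⟨i, nxt⟩ := y
      obtain ⟨u, nxt', h1, -⟩ := nd_inl hN W _ i nxt rfl
      rw [h1] at h
      cases h
    | inr b' => simpa [nd] using h
  · rintro rfl
    rfl

/-- steps from a node -/
def aft (P : Prog n) (w : Fin n → Sym) (s : P.Node) : ℕ → P.Node
  | 0 => s
  | t + 1 =>
    match P.act (aft P w s t) with
    | Sum.inl (i, nxt) => nxt (w i)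
    | Sum.inr _ => aft P w s t

theorem aft_succ (P : Prog n) (w : Fin n → Sym) (s : P.Node) (t : ℕ) :
    aft P w s (t + 1) = match P.act s with
      | Sum.inl (i, nxt) => aft P w (nxt (w i)) t
      | Sum.inr _ => s := by
  induction t with
  | zero =>
    rw [aft, aft]
    rcases P.act s with ⟨i, nxt⟩ | b <;> rfl
  | succ t ih =>
    rw [aft, ih]
    rcases h : P.act s with ⟨i, nxt⟩ | b
    · simp only
      rfl
    · simp only [h]

theorem after_eq (P : Prog n) (w : Fin n → Sym) (t : ℕ) : P.after w t = aft P w P.start t := by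
  induction t with
  | zero => rfl
  | succ t ih =>
    rw [Prog.after, aft, ih]
    rcases P.act (aft P w P.start t) with ⟨i, nxt⟩ | b <;> rfl

theorem aft_walk (hN : 0 < N) (W : Fin n → Sym ⊕ Fin N) (P : Prog n) (x : Pt N) (b : Bool) :
    ∀ (t : ℕ) (s : P.Node), P.act (aft P (fun i => sv x (W i)) s t) = Sum.inr b →
      ∃ (l : List (Fin N)) (v : P.Node), l.length ≤ t ∧ (toBP hN W P).Walk x s l v ∧
        (toBP hN W P).node v = Sum.inr b := by
  intro t
  induction t with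
  | zero =>
    intro s h
    exact ⟨[], s, le_rfl, rfl, (nd_inr hN W _ b).mpr h⟩
  | succ t ih =>
    intro s h
    rw [aft_succ] at h
    rcases hs : P.act s with ⟨i, nxt⟩ | b'
    · rw [hs] at h
      simp only at h
      obtain ⟨l, v, h1, h2, h3⟩ := ih _ h
      obtain ⟨u, nxt', h4, h5⟩ := nd_inl hN W _ i nxt hs
      exact ⟨u :: l, v, by simpa using h1, ⟨nxt', h4, by rw [h5]; exact h2⟩, h3⟩
    · rw [hs] at h
      exact ⟨[], s, Nat.zero_le _, rfl, (nd_inr hN W _ b).mpr h⟩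

theorem walk_aft (hN : 0 < N) (W : Fin n → Sym ⊕ Fin N) (P : Prog n) (x : Pt N) (b : Bool) :
    ∀ (l : List (Fin N)) (s v : P.Node), (toBP hN W P).Walk x s l v →
      (toBP hN W P).node v = Sum.inr b →
      P.act (aft P (fun i => sv x (W i)) s l.length) = Sum.inr b := by
  intro l
  induction l with
  | nil =>
    rintro s v rfl h
    exact (nd_inr hN W _ b).mp h
  | cons u l ih =>
    rintro s v ⟨nxt', h1, h2⟩ h
    rw [List.length_cons, aft_succ]
    rcases hs : P.act s with ⟨i, nxt⟩ | b'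
    · obtain ⟨u', nxt'', h4, h5⟩ := nd_inl hN W _ i nxt hs
      have h6 : Sum.inl (u, nxt') = (Sum.inl (u', nxt'') : (Fin N × (Bool → P.Node)) ⊕ Bool) :=
        h1.symm.trans h4
      obtain ⟨rfl, rfl⟩ := Prod.mk.inj (Sum.inl.inj h6)
      rw [h5] at h2
      exact ih _ _ h2 h
    · have h7 : (toBP hN W P).node s = Sum.inr b' := (nd_inr hN W _ b').mpr hs
      rw [h1] at h7
      cases h7

theorem comp_iff (hN : 0 < N) (W : Fin n → Sym ⊕ Fin N) (P : Prog n) (x : Pt N) (b : Bool)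
    (t : ℕ) : P.Answers (fun i => sv x (W i)) t b →
      ∃ l, (toBP hN W P).Comp x l b ∧ l.length ≤ t := by
  intro h
  unfold Prog.Answers at h
  rw [after_eq] at h
  obtain ⟨l, v, h1, h2, h3⟩ := aft_walk hN W P x b t _ h
  exact ⟨l, ⟨v, h2, h3⟩, h1⟩

theorem comp_ans (hN : 0 < N) (W : Fin n → Sym ⊕ Fin N) (P : Prog n) (x : Pt N) (b : Bool)
    (l : List (Fin N)) (h : (toBP hN W P).Comp x l b) :
    P.Answers (fun i => sv x (W i)) l.length b := by
  obtain ⟨v, h2, h3⟩ := h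
  unfold Prog.Answers
  rw [after_eq]
  exact walk_aft hN W P x b l _ v h2 h3

end

/-- a fourth root -/
theorem root (C n : ℕ) (hC : 0 < C) : ∃ m, C * ((m * m) * (m * m)) ≤ n ∧
    n < C * (((m + 1) * (m + 1)) * ((m + 1) * (m + 1))) := by
  refine ⟨Nat.sqrt (Nat.sqrt (n / C)), ?_, ?_⟩
  · have h1 := Nat.sqrt_le (Nat.sqrt (n / C))
    have h2 := Nat.sqrt_le (n / C)
    calc C * _ ≤ C * (Nat.sqrt (n / C) * Nat.sqrt (n / C)) :=
          Nat.mul_le_mul_left _ (Nat.mul_le_mul h1 h1)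
      _ ≤ C * (n / C) := Nat.mul_le_mul_left _ h2
      _ ≤ n := Nat.mul_div_le n C
  · set m := Nat.sqrt (Nat.sqrt (n / C)) with hm
    have h1 : Nat.sqrt (n / C) + 1 ≤ (m + 1) * (m + 1) := Nat.lt_succ_sqrt _
    have h2 : n / C < (Nat.sqrt (n / C) + 1) * (Nat.sqrt (n / C) + 1) := Nat.lt_succ_sqrt _
    have h3 : n / C < ((m + 1) * (m + 1)) * ((m + 1) * (m + 1)) :=
      lt_of_lt_of_le h2 (Nat.mul_le_mul h1 h1)
    rw [Nat.div_lt_iff_lt_mul hC] at h3
    rw [mul_comm C]
    exact h3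

theorem main (k : ℕ) : ∃ D : ℕ, 0 < D ∧ ∀ n ≥ D, ∀ P : Prog n,
    Fintype.card P.Node < 2 ^ (n / D) →
    (∀ (e : Expr) (h : e.code.length = n), e.Satisfiable → ∀ t, ¬ P.Answers (word e h) t false) →
    ∃ (e : Expr) (h : e.code.length = n), ¬ e.Satisfiable ∧
      ¬ P.Answers (word e h) (k * n) false := by
  obtain ⟨p, l, D0, hp, hD0, hcore⟩ := Core.core (960 * k)
  obtain ⟨m0, hfam⟩ := fam p l (by omega)
  obtain ⟨C, hC⟩ : ∃ C, C = 60 * (p * p) := ⟨_, rfl⟩
  have hC0 : 0 < C := by rw [hC]; positivity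
  obtain ⟨m1, hm1⟩ : ∃ c, c = m0 + D0 + 10 := ⟨_, rfl⟩
  refine ⟨C * ((m1 * m1) * (m1 * m1)) + 960 * D0, by omega, ?_⟩
  intro n hn P hP hP1
  obtain ⟨m, hm2, hm3⟩ := root C n hC0
  have hmm : m1 ≤ m := by
    by_contra h
    have h1 : m + 1 ≤ m1 := by omega
    have h2 : C * (((m + 1) * (m + 1)) * ((m + 1) * (m + 1))) ≤ C * ((m1 * m1) * (m1 * m1)) :=
      Nat.mul_le_mul_left _ (Nat.mul_le_mul (Nat.mul_le_mul h1 h1) (Nat.mul_le_mul h1 h1))
    omega
  have : NeZero m := ⟨by omega⟩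
  obtain ⟨φ, j0, hφ1, hj0, hφ2, hφ3⟩ := hfam m (by omega)
  obtain ⟨N', hN'⟩ : ∃ N', N' = p * p * ((m * m) * (m * m)) := ⟨_, rfl⟩
  have hNN : p * p * nr 1 m = N' := by
    rw [hN']
    have hnr : nr 1 m = (1 * 1) * ((m * m) * (m * m)) := nr_eq
    rw [hnr]; ring
  have hmN : 10 * m ≤ N' := by
    have h1 : 10 * m ≤ m * m := Nat.mul_le_mul_right m (by omega)
    have h2 : m * m ≤ (m * m) * (m * m) := Nat.le_mul_self _
    have h3 : (m * m) * (m * m) ≤ p * p * ((m * m) * (m * m)) :=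
      Nat.le_mul_of_pos_left _ (by positivity)
    omega
  have hn1 : 60 * N' ≤ n := by
    rw [hN']
    calc 60 * (p * p * (m * m * (m * m))) = C * (m * m * (m * m)) := by rw [hC]; ring
      _ ≤ n := hm2
  have hn2 : n ≤ 960 * N' := by
    have h1 : (m + 1) * (m + 1) ≤ 4 * (m * m) := by nlinarith
    calc n ≤ C * (((m + 1) * (m + 1)) * ((m + 1) * (m + 1))) := hm3.le
      _ ≤ C * ((4 * (m * m)) * (4 * (m * m))) :=
          Nat.mul_le_mul_left _ (Nat.mul_le_mul h1 h1)
      _ = 960 * N' := by rw [hC, hN']; ring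
  have hpos : 0 < p * p * nr 1 m := by omega
  -- the padded formula
  have hφ1' : φ.code.length ≤ 30 * N' := hφ1.trans (le_of_eq (by rw [hNN]))
  obtain ⟨j, hj⟩ : ∃ j, j = n - φ.code.length - 5 := ⟨_, rfl⟩
  have hjl : φ.code.length + j + 5 = n := by omega
  have hjj : j0 ≤ j := by omega
  let ψ : TE (p * p * nr 1 m) := .and φ (.var (List.replicate j (Sum.inr false)))
  have hψl : ψ.code.length = n := by
    show (TE.and φ (.var (List.replicate j (Sum.inr false)))).code.length = n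
    rw [len_and, len_var, List.length_replicate]
    omega
  have hψs : ∀ x : Pt (p * p * nr 1 m), (ψ.inst x).Satisfiable ↔
      ∃ γ : Mu p l × Rest 1 m, Fm γ x ≠ 0 := by
    intro x
    rw [sat_iff, ← hφ3 x]
    constructor
    · rintro ⟨v, hv, -⟩
      exact ⟨v, hv⟩
    · intro hv
      obtain ⟨v, h1, h2⟩ := hφ2 ((List.replicate j (Sum.inr false)).map (dv x)) (by simpa using hjj)
        x hv
      exact ⟨v, h1, h2⟩
  have hlen : ∀ x, (ψ.inst x).code.length = n := fun x => (len_inst x ψ).trans hψl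
  let W : Fin n → Sym ⊕ Fin (p * p * nr 1 m) := fun i => ψ.code.get (i.cast hψl.symm)
  have hword : ∀ x, word (ψ.inst x) (hlen x) = fun i => sv x (W i) := by
    intro x
    funext i
    simp only [word, W, List.get_eq_getElem, Fin.val_cast]
    have h1 := code_inst x ψ
    rw [List.getElem_of_eq h1, List.getElem_map]
  obtain ⟨x, hx1, hx2⟩ := hcore m (by omega) (toBP hpos W P) (by
    have h1 : n / (C * ((m1 * m1) * (m1 * m1)) + 960 * D0) ≤ p * p * nr 1 m / D0 := by
      rw [hNN]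
      calc n / (C * ((m1 * m1) * (m1 * m1)) + 960 * D0) ≤ (960 * N') / (960 * D0) :=
            Nat.div_le_div hn2 (by omega) (by omega)
        _ = N' / D0 := Nat.mul_div_mul_left _ _ (by norm_num)
    exact lt_of_lt_of_le hP (Nat.pow_le_pow_right (by norm_num) h1)) (by
    intro x hx l' hl'
    have h1 := comp_ans hpos W P x false l' hl'
    rw [← hword x] at h1
    exact hP1 _ (hlen x) ((hψs x).mpr hx) _ h1)
  refine ⟨ψ.inst x, hlen x, ?_, ?_⟩
  · rw [hψs x]
    push Not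
    exact hx1
  · intro h
    rw [hword x] at h
    obtain ⟨l', h1, h2⟩ := comp_iff hpos W P x false _ h
    have h3 := hx2 l' h1
    have h5 : 960 * k * (p * p * nr 1 m) = 960 * k * N' := by rw [hNN]
    have h4 : k * n ≤ 960 * k * N' := by
      calc k * n ≤ k * (960 * N') := Nat.mul_le_mul_left _ hn2
        _ = 960 * k * N' := by ring
    omega

end Pool.Agent.W952.Sat
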