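import Pool.Agent.W952.Sat.Form

set_option autoImplicit false
set_option linter.unusedSectionVars false

/-! The formula and its length. -/

open Finset

namespace Pool.Agent.W952.Sat

open Pool.Agent.H822R5.LN Pool.Agent.W952.Mx Pool.Agent.W952.Fr Pool.Agent.W952.Ap
open Pool.Agent.H554R2.Sem

section

variable {p m q : ℕ} [NeZero m] (E : Nm p m q)

/-- variable -/
abbrev Nm.v (i : NZ p m q) : TE (p * p * nr 1 m) := .var (E.A i)

/-- the table -/
noncomputable def phA : TE (p * p * nr 1 m) :=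
  allT (fun y : Bool × (Fin (p * p) × ((ZMod m × ZMod m) × (ZMod m × Fin (m / q + 1)))) =>
    imp (E.v (nP y.1 y.2.2.1)) (imp (E.v (nQ y.1 y.2.2.2.1 y.2.2.2.2))
      (.var (E.Z y.1 y.2.1 (wt y.2.1 y.2.2.1 y.2.2.2.1 y.2.2.2.2)))))

/-- the digits of the words -/
noncomputable def phB : TE (p * p * nr 1 m) :=
  allT (fun y : Bool × (Fin (p * p) × (Fin q → Bool)) =>
    imp (.var (E.Z y.1 y.2.1 (fun i => Sum.inr (y.2.2 i))))
      (allT (fun i : Fin q => lit (E.A (nD y.1 y.2.1 i)) (y.2.2 i))))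

/-- the bits read -/
noncomputable def phC : TE (p * p * nr 1 m) :=
  allT (fun y : Bool × (Fin (p * p) × Fin q) =>
    imp (E.v (nS y.1 y.2.2)) (eqv (E.v (nV y.1 y.2.1)) (E.v (nD y.1 y.2.1 y.2.2))))

/-- the choice of the form -/
noncomputable def phD (l : ℕ) (hq : 0 < q) : TE (p * p * nr 1 m) :=
  exT (fun c : Conf p l 1 =>
    .and (exT (fun a : ZMod m × ZMod m =>
        .and (E.v (nP false a)) (E.v (nP true (act2 m c.μ.1.2.1 a)))))
      (.and (exT (fun b : ZMod m × ZMod m =>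
          .and (.and (E.v (nQ false b.1 (hi hq b.2))) (E.v (nS false (lo hq b.2))))
            (.and (E.v (nQ true (act2 m c.μ.1.2.2 b).1 (hi hq (act2 m c.μ.1.2.2 b).2)))
              (E.v (nS true (lo hq (act2 m c.μ.1.2.2 b).2))))))
        (allT (fun t : Fin (p * p) =>
          .and (lit (E.A (nV false t)) (c.bu t)) (lit (E.A (nV true t)) (c.bv t))))))

/-- the formula -/
noncomputable def phi (l : ℕ) (hq : 0 < q) : TE (p * p * nr 1 m) :=
  .and (.and (phA E) (phB E)) (.and (phC E) (phD E l hq))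

theorem ev_phi (l : ℕ) (hq : 0 < q) (x : Pt (p * p * nr 1 m)) (v : List Bool → Bool) :
    (phi E l hq).ev x v ↔ Good p m q E l hq x v := by
  constructor
  · rintro ⟨⟨hA, hB⟩, hC, hD⟩
    refine ⟨?_, ?_, ?_, ?_⟩
    · intro r t a b h
      have := (ev_allT _).mp hA (r, (t, (a, (b, h))))
      simpa only [ev_imp, TE.ev, E.A_map, E.Z_map] using this
    · intro r t b h i
      have := (ev_allT _).mp hB (r, (t, b))
      simp only [ev_imp, TE.ev, E.Z_map, ev_allT, ev_lit, E.A_map] at this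
      exact this h i
    · intro r t i h
      have := (ev_allT _).mp hC (r, (t, i))
      simp only [ev_imp, TE.ev, ev_eqv, E.A_map] at this
      exact this h
    · obtain ⟨c, h1, h2, h3⟩ := (ev_exT _).mp hD
      refine ⟨c, ?_, ?_, ?_⟩
      · simpa only [ev_exT, TE.ev, E.A_map] using h1
      · simpa only [ev_exT, TE.ev, E.A_map] using h2
      · simpa only [ev_allT, TE.ev, E.A_map, ev_lit] using h3
  · rintro ⟨ha, hb, hc, hd⟩
    refine ⟨⟨?_, ?_⟩, ?_, ?_⟩
    · refine (ev_allT _).mpr ?_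
      rintro ⟨r, t, a, b, h⟩
      simpa only [ev_imp, TE.ev, E.A_map, E.Z_map] using ha r t a b h
    · refine (ev_allT _).mpr ?_
      rintro ⟨r, t, b⟩
      simp only [ev_imp, TE.ev, E.Z_map, ev_allT, ev_lit, E.A_map]
      exact fun h i => hb r t b h i
    · refine (ev_allT _).mpr ?_
      rintro ⟨r, t, i⟩
      simp only [ev_imp, TE.ev, ev_eqv, E.A_map]
      exact hc r t i
    · obtain ⟨c, h1, h2, h3⟩ := hd
      refine (ev_exT _).mpr ⟨c, ?_, ?_, ?_⟩
      · simpa only [ev_exT, TE.ev, E.A_map] using h1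
      · simpa only [ev_exT, TE.ev, E.A_map] using h2
      · simpa only [ev_allT, TE.ev, E.A_map, ev_lit] using h3

theorem len_v (i : NZ p m q) : (E.v i).code.length = E.ℓ + 3 := by
  rw [len_var, E.A_len]

theorem len_Z (r : Bool) (t : Fin (p * p)) (b : Fin q → Fin (p * p * nr 1 m) ⊕ Bool) :
    (TE.var (E.Z r t b)).code.length = E.s + q + 3 := by
  rw [len_var, E.Z_len]

theorem len_phA : (phA E).code.length ≤
    2 * ((p * p) * ((m * m) * (m * (m / q + 1)))) * (2 * E.ℓ + E.s + q + 20) + 8 := by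
  have := len_allT (fun y : Bool × (Fin (p * p) × ((ZMod m × ZMod m) ×
      (ZMod m × Fin (m / q + 1)))) =>
    imp (E.v (nP y.1 y.2.2.1)) (imp (E.v (nQ y.1 y.2.2.2.1 y.2.2.2.2))
      (.var (E.Z y.1 y.2.1 (wt y.2.1 y.2.2.1 y.2.2.2.1 y.2.2.2.2)))))
    (2 * E.ℓ + E.s + q + 17) (by
      intro y
      rw [len_imp, len_imp, len_v, len_v, len_Z]
      omega)
  simp only [Fintype.card_prod, Fintype.card_bool, Fintype.card_fin, ZMod.card] at this
  exact this

theorem len_phB : (phB E).code.length ≤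
    2 * ((p * p) * 2 ^ q) * (E.s + q + 18 + q * (E.ℓ + 7)) + 8 := by
  have := len_allT (fun y : Bool × (Fin (p * p) × (Fin q → Bool)) =>
    imp (.var (E.Z y.1 y.2.1 (fun i => Sum.inr (y.2.2 i))))
      (allT (fun i : Fin q => lit (E.A (N := p * p * nr 1 m) (nD y.1 y.2.1 i)) (y.2.2 i))))
    (E.s + q + 15 + q * (E.ℓ + 7)) (by
      intro y
      rw [len_imp, len_Z]
      have := len_allT (fun i : Fin q => lit (E.A (N := p * p * nr 1 m) (nD y.1 y.2.1 i))
        (y.2.2 i)) (E.ℓ + 4) (by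
          intro i
          have := len_lit (E.A (N := p * p * nr 1 m) (nD y.1 y.2.1 i)) (y.2.2 i)
          rw [E.A_len] at this
          omega)
      rw [Fintype.card_fin] at this
      have h9 : q * (E.ℓ + 4 + 3) = q * (E.ℓ + 7) := by ring
      omega)
  simp only [Fintype.card_prod, Fintype.card_bool, Fintype.card_fin, Fintype.card_fun] at this
  refine this.trans (le_of_eq ?_)
  ring

theorem len_phC : (phC E).code.length ≤ 2 * ((p * p) * q) * (5 * E.ℓ + 33) + 8 := by
  have := len_allT (fun y : Bool × (Fin (p * p) × Fin q) =>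
    imp (E.v (nS y.1 y.2.2)) (eqv (E.v (nV y.1 y.2.1)) (E.v (nD y.1 y.2.1 y.2.2))))
    (5 * E.ℓ + 30) (by
      intro y
      rw [len_imp, len_eqv, len_v, len_v, len_v]
      omega)
  simp only [Fintype.card_prod, Fintype.card_bool, Fintype.card_fin] at this
  exact this

theorem len_phD (l : ℕ) (hq : 0 < q) : (phD E l hq).code.length ≤
    Fintype.card (Conf p l 1) * ((m * m) * (6 * E.ℓ + 36) + (p * p) * (2 * E.ℓ + 14) + 33) + 8 := by
  unfold phD
  refine (len_exT _ ((m * m) * (6 * E.ℓ + 36) + (p * p) * (2 * E.ℓ + 14) + 30) ?_).trans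
    (le_of_eq (by ring))
  intro c
  rw [len_and, len_and]
  have h1 := len_exT (fun a : ZMod m × ZMod m =>
        TE.and (E.v (nP false a)) (E.v (nP true (act2 m c.μ.1.2.1 a)))) (2 * E.ℓ + 9) (by
      intro a
      rw [len_and, len_v, len_v]
      omega)
  have h2 := len_exT (fun b : ZMod m × ZMod m =>
          TE.and (.and (E.v (nQ false b.1 (hi hq b.2))) (E.v (nS false (lo hq b.2))))
            (.and (E.v (nQ true (act2 m c.μ.1.2.2 b).1 (hi hq (act2 m c.μ.1.2.2 b).2)))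
              (E.v (nS true (lo hq (act2 m c.μ.1.2.2 b).2))))) (4 * E.ℓ + 21) (by
      intro b
      rw [len_and, len_and, len_and, len_v, len_v, len_v, len_v]
      omega)
  have h3 := len_allT (fun t : Fin (p * p) =>
          TE.and (lit (E.A (N := p * p * nr 1 m) (nV false t)) (c.bu t))
            (lit (E.A (nV true t)) (c.bv t))) (2 * E.ℓ + 11) (by
      intro t
      have h4 := len_lit (E.A (N := p * p * nr 1 m) (nV false t)) (c.bu t)
      have h5 := len_lit (E.A (N := p * p * nr 1 m) (nV true t)) (c.bv t)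
      rw [E.A_len] at h4 h5
      rw [len_and]
      omega)
  simp only [Fintype.card_prod, Fintype.card_fin, ZMod.card] at h1 h2 h3
  have h6 : (m * m) * (6 * E.ℓ + 36) = m * m * (2 * E.ℓ + 9 + 3) + m * m * (4 * E.ℓ + 21 + 3) := by
    ring
  have h7 : (p * p) * (2 * E.ℓ + 14) = p * p * (2 * E.ℓ + 11 + 3) := by ring
  omega

end

/-- the sizes -/
theorem arith {P m q ℓ s K w c B : ℕ} (hP : 1 ≤ P) (hℓ : ℓ ≤ 2 * q + c) (hs : s ≤ c)
    (hq : 4 * c + 100 ≤ q) (hw : w * q ≤ 2 * m) (hB : B ≤ m) (hqB : q * q ≤ 4 * B)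
    (hm : 100 * K + 200 ≤ m) :
    2 * (P * ((m * m) * (m * w))) * (2 * ℓ + s + q + 20) + 8 +
      (2 * (P * B) * (s + q + 18 + q * (ℓ + 7)) + 8) + 3 +
      ((2 * (P * q) * (5 * ℓ + 33) + 8) +
        (K * ((m * m) * (6 * ℓ + 36) + P * (2 * ℓ + 14) + 33) + 8) + 3) + 3 ≤
    30 * (P * ((m * m) * (m * m))) := by
  have hqm : q ≤ m := by nlinarith
  have hqq : q * q ≤ 4 * m := hqB.trans (by omega)
  obtain ⟨T, hT⟩ : ∃ T, T = P * ((m * m) * (m * m)) := ⟨_, rfl⟩
  have hA : 2 * (P * ((m * m) * (m * w))) * (2 * ℓ + s + q + 20) ≤ 24 * T := by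
    calc 2 * (P * ((m * m) * (m * w))) * (2 * ℓ + s + q + 20) ≤
        2 * (P * ((m * m) * (m * w))) * (6 * q) := Nat.mul_le_mul_left _ (by omega)
      _ = 12 * (P * ((m * m) * m)) * (w * q) := by ring
      _ ≤ 12 * (P * ((m * m) * m)) * (2 * m) := Nat.mul_le_mul_left _ hw
      _ = 24 * T := by rw [hT]; ring
  have hPm : P * (m * (m * m)) * 200 ≤ T := by
    calc P * (m * (m * m)) * 200 ≤ P * (m * (m * m)) * m := Nat.mul_le_mul_left _ (by omega)
      _ = T := by rw [hT]; ring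
  have hPm2 : P * (m * m) ≤ P * (m * (m * m)) :=
    Nat.mul_le_mul_left _ (Nat.le_mul_of_pos_left _ (by omega))
  have hPm1 : P * m ≤ P * (m * m) :=
    Nat.mul_le_mul_left _ (Nat.le_mul_of_pos_left _ (by omega))
  have hB' : 2 * (P * B) * (s + q + 18 + q * (ℓ + 7)) ≤ 40 * (P * (m * m)) := by
    have h1 : s + q + 18 + q * (ℓ + 7) ≤ 5 * (q * q) := by
      have h2 : q * (ℓ + 7) ≤ q * (3 * q) := Nat.mul_le_mul_left _ (by omega)
      have h3 : s + q + 18 ≤ q * q := by nlinarith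
      nlinarith
    calc 2 * (P * B) * (s + q + 18 + q * (ℓ + 7)) ≤ 2 * (P * m) * (5 * (4 * m)) :=
          Nat.mul_le_mul (Nat.mul_le_mul_left _ (Nat.mul_le_mul_left _ hB))
            (h1.trans (Nat.mul_le_mul_left _ hqq))
      _ = 40 * (P * (m * m)) := by ring
  have hC : 2 * (P * q) * (5 * ℓ + 33) ≤ 120 * (P * m) := by
    calc 2 * (P * q) * (5 * ℓ + 33) ≤ 2 * (P * q) * (15 * q) :=
          Nat.mul_le_mul_left _ (by omega)
      _ = 30 * P * (q * q) := by ring
      _ ≤ 30 * P * (4 * m) := Nat.mul_le_mul_left _ hqq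
      _ = 120 * (P * m) := by ring
  have hD : K * ((m * m) * (6 * ℓ + 36) + P * (2 * ℓ + 14) + 33) ≤ 1 * T := by
    have h1 : (m * m) * (6 * ℓ + 36) ≤ (m * m) * (18 * m) :=
      Nat.mul_le_mul_left _ (by omega)
    have h2 : P * (2 * ℓ + 14) ≤ P * (6 * m) := Nat.mul_le_mul_left _ (by omega)
    have h3 : (m * m) * (18 * m) ≤ 18 * (P * (m * (m * m))) := by
      have : m * (m * m) ≤ P * (m * (m * m)) := Nat.le_mul_of_pos_left _ hP
      nlinarith
    have h4 : P * (6 * m) ≤ 6 * (P * (m * (m * m))) := by nlinarith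
    have h5 : 33 ≤ P * (m * (m * m)) := by
      have h6 : m ≤ P * m := Nat.le_mul_of_pos_left _ hP
      omega
    calc K * ((m * m) * (6 * ℓ + 36) + P * (2 * ℓ + 14) + 33) ≤
        K * (25 * (P * (m * (m * m)))) := Nat.mul_le_mul_left _ (by omega)
      _ = (25 * K) * (P * (m * (m * m))) := by ring
      _ ≤ m * (P * (m * (m * m))) := Nat.mul_le_mul_right _ (by omega)
      _ = 1 * T := by rw [hT]; ring
  have h1P : 1 ≤ P * m := by nlinarith
  rw [← hT]
  omega

/-- names exist -/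
theorem names (p m q : ℕ) [NeZero m] (hqm : q ≤ m) (hm : m < 2 ^ (q + 1)) :
    ∃ E : Nm p m q, E.ℓ = 2 * q + (p * p + 6) ∧ E.s = p * p + 1 := by
  have hpp : p * p + 1 ≤ 2 ^ (p * p) := Nat.lt_two_pow_self
  have h1 : Fintype.card (NZ p m q) ≤ Fintype.card (Fin (2 * q + (p * p + 6)) → Bool) := by
    rw [Fintype.card_fun, Fintype.card_bool, Fintype.card_fin]
    simp only [Fintype.card_sum, Fintype.card_prod, Fintype.card_bool, Fintype.card_fin, ZMod.card]
    have h2 : m * m ≤ 2 ^ (q + 1) * 2 ^ (q + 1) := Nat.mul_le_mul hm.le hm.le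
    have h3 : 2 ^ (2 * q + (p * p + 6)) = 16 * (2 ^ (p * p) * (2 ^ (q + 1) * 2 ^ (q + 1))) := by
      rw [show 2 * q + (p * p + 6) = 4 + (p * p + ((q + 1) + (q + 1))) by ring, pow_add, pow_add,
        pow_add]
      norm_num
    have h4 : (p * p + 1) * (m * m) ≤ 2 ^ (p * p) * (2 ^ (q + 1) * 2 ^ (q + 1)) :=
      Nat.mul_le_mul hpp h2
    have hm1 : 1 ≤ m := Nat.one_le_iff_ne_zero.mpr (NeZero.ne m)
    have hmm : m ≤ m * m := Nat.le_mul_self m
    have h5 : m * (m / q + 1) ≤ m * m + m * m := by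
      have : m / q ≤ m := Nat.div_le_self _ _
      nlinarith
    have h6 : p * p * q ≤ p * p * (m * m) := Nat.mul_le_mul_left _ (by omega)
    have h7 : p * p ≤ p * p * (m * m) := Nat.le_mul_of_pos_right _ (by positivity)
    have h8 : (p * p + 1) * (m * m) = p * p * (m * m) + m * m := by ring
    rw [h3]
    omega
  have h2 : Fintype.card (Bool × Fin (p * p)) ≤ Fintype.card (Fin (p * p + 1) → Bool) := by
    rw [Fintype.card_fun, Fintype.card_bool, Fintype.card_fin, Fintype.card_prod,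
      Fintype.card_bool, Fintype.card_fin, pow_succ]
    omega
  obtain ⟨e1⟩ := Function.Embedding.nonempty_of_card_le h1
  obtain ⟨e2⟩ := Function.Embedding.nonempty_of_card_le h2
  exact ⟨⟨_, _, e1, e2⟩, rfl, rfl⟩

/-- the formulas with their length -/
theorem fam (p l : ℕ) (hp : 1 ≤ p) : ∃ m0 : ℕ, ∀ (m : ℕ) [NeZero m], m0 ≤ m →
    ∃ (φ : TE (p * p * nr 1 m)) (j0 : ℕ), φ.code.length ≤ 30 * (p * p * nr 1 m) ∧ j0 ≤ m ∧
      (∀ ds : List Bool, j0 ≤ ds.length → ∀ (x : Pt (p * p * nr 1 m)),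
        (∃ v, φ.ev x v) → ∃ v, φ.ev x v ∧ v ds = true) ∧
      ∀ x : Pt (p * p * nr 1 m), (∃ v, φ.ev x v) ↔ ∃ γ : Mu p l × Rest 1 m, Fm γ x ≠ 0 := by
  obtain ⟨c, hc⟩ : ∃ c, c = p * p + 6 := ⟨_, rfl⟩
  refine ⟨2 ^ (4 * c + 100) + 100 * Fintype.card (Conf p l 1) + 200, ?_⟩
  intro m _ hm
  obtain ⟨q, hq⟩ : ∃ q, q = Nat.log 2 m := ⟨_, rfl⟩
  have hm0 : m ≠ 0 := NeZero.ne m
  have h1 : 2 ^ q ≤ m := by rw [hq]; exact Nat.pow_log_le_self 2 hm0
  have h2 : m < 2 ^ (q + 1) := by rw [hq]; exact Nat.lt_pow_succ_log_self (by norm_num) m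
  have hqb : 4 * c + 100 ≤ q := by
    rw [hq]
    exact Nat.le_log_of_pow_le (by norm_num) (by omega)
  have hq2 : q < 2 ^ q := Nat.lt_two_pow_self
  have hqm : q ≤ m := by omega
  have hq0 : 0 < q := by omega
  have hqq : q * q ≤ 4 * 2 ^ q := by
    have h3 : q / 2 + 1 ≤ 2 ^ (q / 2) := Nat.lt_two_pow_self
    have h4 : q ≤ 2 * 2 ^ (q / 2) := by omega
    calc q * q ≤ (2 * 2 ^ (q / 2)) * (2 * 2 ^ (q / 2)) := Nat.mul_le_mul h4 h4
      _ = 4 * 2 ^ (q / 2 + q / 2) := by rw [pow_add]; ring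
      _ ≤ 4 * 2 ^ q := Nat.mul_le_mul_left _ (Nat.pow_le_pow_right (by norm_num) (by omega))
  obtain ⟨E, hE1, hE2⟩ := names p m q hqm h2
  refine ⟨phi E l hq0, E.ℓ + E.s + q + 3, ?_, ?_, ?_, ?_⟩
  · have hA := len_phA E
    have hB := len_phB E
    have hC := len_phC E
    have hD := len_phD E l hq0
    have hwq : (m / q + 1) * q ≤ 2 * m := by
      have := Nat.div_mul_le_self m q
      have h3 : (m / q + 1) * q = m / q * q + q := by ring
      omega
    have := arith (P := p * p) (m := m) (q := q) (ℓ := E.ℓ) (s := E.s)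
      (K := Fintype.card (Conf p l 1)) (w := m / q + 1) (c := c) (B := 2 ^ q)
      (by nlinarith) (by omega) (by omega) hqb hwq h1 hqq (by
        have : 0 ≤ 2 ^ (4 * c + 100) := Nat.zero_le _
        omega)
    have hnr : nr 1 m = (1 * 1) * ((m * m) * (m * m)) := nr_eq
    have h3 : p * p * nr 1 m = p * p * (m * m * (m * m)) := by rw [hnr]; ring
    have h4 : (phi E l hq0).code.length ≤ 30 * (p * p * (m * m * (m * m))) := by
      unfold phi
      rw [len_and, len_and, len_and]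
      omega
    exact h4.trans (le_of_eq (by rw [h3]))
  · have h3 : q * q ≤ 4 * m := by omega
    have h4 : 4 * (5 * q) ≤ q * q := by nlinarith
    omega
  · intro ds hds x ⟨v, hv⟩
    classical
    refine ⟨Function.update v ds true, ?_, by simp⟩
    rw [ev_phi] at hv ⊢
    have ha : ∀ i, Function.update v ds true (E.a i) = v (E.a i) := by
      intro i
      apply Function.update_of_ne
      intro h
      rw [← h] at hds
      simp [Nm.a] at hds
      omega
    have hz : ∀ r t b, Function.update v ds true (E.z r t b) = v (E.z r t b) := by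
      intro r t b
      apply Function.update_of_ne
      intro h
      rw [← h] at hds
      simp [Nm.z] at hds
      omega
    obtain ⟨g1, g2, g3, g4⟩ := hv
    refine ⟨?_, ?_, ?_, ?_⟩
    · simpa only [ha, hz] using g1
    · simpa only [ha, hz] using g2
    · simpa only [ha, hz] using g3
    · simpa only [ha, hz] using g4
  · intro x
    rw [← good_iff E hq0 x]
    simp only [ev_phi]

end Pool.Agent.W952.Sat
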