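import Pool.Agent.W952.Sat.Defs
import Mathlib.Tactic

set_option autoImplicit false

/-! Expressions with free digits in the indices of the variables. -/

namespace Pool.Agent.W952.Sat

/-- the digit as a symbol -/
def dig (b : Bool) : Sym := if b then Sym.one else Sym.zero

theorem dig_inj {b c : Bool} (h : dig b = dig c) : b = c := by
  revert h; cases b <;> cases c <;> simp [dig]

/-- the number with the binary digits `1 :: ds` -/
def num (ds : List Bool) : ℕ := ds.foldl (fun a b => 2 * a + (if b then 1 else 0)) 1

theorem num_snoc (ds : List Bool) (b : Bool) :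
    num (ds ++ [b]) = 2 * num ds + (if b then 1 else 0) := by
  unfold num
  rw [List.foldl_append]
  rfl

theorem num_pos (ds : List Bool) : 0 < num ds := by
  induction ds using List.reverseRecOn with
  | nil => exact Nat.one_pos
  | append_singleton ds b ih => rw [num_snoc]; omega

theorem bin_num (ds : List Bool) : bin (num ds) = Sym.one :: ds.map dig := by
  induction ds using List.reverseRecOn with
  | nil => simp [num, bin]
  | append_singleton ds b ih =>
    have h0 := num_pos ds
    unfold bin at ih ⊢
    have h1 : Nat.digits 2 (num (ds ++ [b])) = (if b then 1 else 0) :: Nat.digits 2 (num ds) := by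
      rw [num_snoc]
      cases b
      · rw [Nat.digits_def' (by norm_num) (by simp; omega)]
        simp only [Bool.false_eq_true, if_false, add_zero]
        congr 1
        · omega
        · congr 1; omega
      · rw [Nat.digits_def' (by norm_num) (by simp)]
        simp only [if_true]
        congr 1
        · omega
        · congr 1; omega
    rw [h1, List.reverse_cons, List.map_append, ih]
    cases b <;> simp [dig]

/-- the index: the variable `var (idx ds)` has the index with the digits `1 :: ds` -/
def idx (ds : List Bool) : ℕ := num ds - 1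

theorem bin_idx (ds : List Bool) : bin (idx ds + 1) = Sym.one :: ds.map dig := by
  have h := num_pos ds
  unfold idx
  rw [Nat.sub_add_cancel h, bin_num]

theorem idx_inj {ds ds' : List Bool} (h : idx ds = idx ds') : ds = ds' := by
  have h1 := bin_idx ds
  rw [h, bin_idx] at h1
  have h2 : ds'.map dig = ds.map dig := (List.cons.inj h1).2
  exact (List.map_injective_iff.mpr (fun _ _ => dig_inj) h2).symm

variable {N : ℕ}

/-- the value of a digit -/
def dv (x : Fin N → Bool) : Fin N ⊕ Bool → Bool
  | Sum.inl u => x u
  | Sum.inr b => b

/-- expressions with free digits -/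
inductive TE (N : ℕ)
  | var (ds : List (Fin N ⊕ Bool))
  | neg (e : TE N)
  | and (e f : TE N)
  | or (e f : TE N)

/-- putting the bits of `x` -/
def TE.inst (x : Fin N → Bool) : TE N → Expr
  | .var ds => .var (idx (ds.map (dv x)))
  | .neg e => .neg (e.inst x)
  | .and e f => .and (e.inst x) (f.inst x)
  | .or e f => .or (e.inst x) (f.inst x)

/-- a symbol with a free digit -/
def dt : Fin N ⊕ Bool → Sym ⊕ Fin N
  | Sum.inl u => Sum.inr u
  | Sum.inr b => Sum.inl (dig b)

/-- the word with free digits -/
def TE.code : TE N → List (Sym ⊕ Fin N)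
  | .var ds => Sum.inl Sym.x :: Sum.inl Sym.one :: ds.map dt
  | .neg e => Sum.inl Sym.neg :: e.code
  | .and e f => Sum.inl Sym.lpar :: (e.code ++ (Sum.inl Sym.and :: (f.code ++ [Sum.inl Sym.rpar])))
  | .or e f => Sum.inl Sym.lpar :: (e.code ++ (Sum.inl Sym.or :: (f.code ++ [Sum.inl Sym.rpar])))

/-- putting the bits into a symbol -/
def sv (x : Fin N → Bool) : Sym ⊕ Fin N → Sym
  | Sum.inl s => s
  | Sum.inr u => dig (x u)

theorem code_inst (x : Fin N → Bool) (e : TE N) : (e.inst x).code = e.code.map (sv x) := by
  induction e with
  | var ds =>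
    simp only [TE.inst, TE.code, Expr.code, bin_idx, List.map_cons, sv, List.map_map]
    congr 2
    apply List.map_congr_left
    rintro (u | b) _ <;> rfl
  | neg e ih => simp only [TE.inst, TE.code, Expr.code, List.map_cons, sv, ih]
  | and e f ihe ihf =>
    simp only [TE.inst, TE.code, Expr.code, List.map_cons, List.map_append, sv, ihe, ihf,
      List.map_nil]
  | or e f ihe ihf =>
    simp only [TE.inst, TE.code, Expr.code, List.map_cons, List.map_append, sv, ihe, ihf,
      List.map_nil]

theorem len_inst (x : Fin N → Bool) (e : TE N) : (e.inst x).code.length = e.code.length := by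
  rw [code_inst, List.length_map]

/-- the value of an expression with free digits -/
def TE.ev (x : Fin N → Bool) (v : List Bool → Bool) : TE N → Prop
  | .var ds => v (ds.map (dv x)) = true
  | .neg e => ¬ e.ev x v
  | .and e f => e.ev x v ∧ f.ev x v
  | .or e f => e.ev x v ∨ f.ev x v

theorem sat_iff (x : Fin N → Bool) (e : TE N) :
    (e.inst x).Satisfiable ↔ ∃ v : List Bool → Bool, e.ev x v := by
  have key : ∀ (w : ℕ → Bool) (v : List Bool → Bool), (∀ ds, w (idx ds) = v ds) →
      ∀ e : TE N, (e.inst x).eval w = true ↔ e.ev x v := by
    intro w v h e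
    induction e with
    | var ds => simp only [TE.inst, Expr.eval, TE.ev, h]
    | neg e ih =>
      simp only [TE.inst, Expr.eval, TE.ev, ← ih]
      simp
    | and e f ihe ihf =>
      simp only [TE.inst, Expr.eval, TE.ev, ← ihe, ← ihf]
      simp
    | or e f ihe ihf =>
      simp only [TE.inst, Expr.eval, TE.ev, ← ihe, ← ihf]
      simp
  constructor
  · rintro ⟨w, hw⟩
    exact ⟨fun ds => w (idx ds), (key w _ (fun _ => rfl) e).mp hw⟩
  · rintro ⟨v, hv⟩
    classical
    refine ⟨fun i => if h : ∃ ds, idx ds = i then v h.choose else false, (key _ v ?_ e).mpr hv⟩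
    intro ds
    have h : ∃ ds', idx ds' = idx ds := ⟨ds, rfl⟩
    simp only [h, dif_pos]
    rw [idx_inj h.choose_spec]

/-- a true expression -/
def tru : TE N := .or (.var []) (.neg (.var []))

/-- a false expression -/
def fls : TE N := .and (.var []) (.neg (.var []))

/-- conjunction of a list -/
def conj : List (TE N) → TE N
  | [] => tru
  | e :: es => .and e (conj es)

/-- disjunction of a list -/
def disj : List (TE N) → TE N
  | [] => fls
  | e :: es => .or e (disj es)

/-- literal -/
def lit (ds : List (Fin N ⊕ Bool)) (b : Bool) : TE N := if b then .var ds else .neg (.var ds)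

/-- implication -/
def imp (e f : TE N) : TE N := .or (.neg e) f

/-- equivalence -/
def eqv (e f : TE N) : TE N := .or (.and e f) (.and (.neg e) (.neg f))

variable {x : Fin N → Bool} {v : List Bool → Bool}

theorem ev_conj (es : List (TE N)) : (conj es).ev x v ↔ ∀ e ∈ es, e.ev x v := by
  induction es with
  | nil => simp [conj, tru, TE.ev, em]
  | cons e es ih => simp [conj, TE.ev, ih]

theorem ev_disj (es : List (TE N)) : (disj es).ev x v ↔ ∃ e ∈ es, e.ev x v := by
  induction es with
  | nil => simp [disj, fls, TE.ev]
  | cons e es ih => simp [disj, TE.ev, ih]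

theorem ev_lit (ds : List (Fin N ⊕ Bool)) (b : Bool) :
    (lit ds b).ev x v ↔ v (ds.map (dv x)) = b := by
  cases b <;> simp [lit, TE.ev]

theorem ev_imp (e f : TE N) : (imp e f).ev x v ↔ (e.ev x v → f.ev x v) := by
  simp only [imp, TE.ev]
  tauto

theorem ev_eqv (e f : TE N) : (eqv e f).ev x v ↔ (e.ev x v ↔ f.ev x v) := by
  simp only [eqv, TE.ev]
  tauto

theorem len_var (ds : List (Fin N ⊕ Bool)) : (TE.var ds).code.length = ds.length + 2 := by
  simp [TE.code]

theorem len_neg (e : TE N) : (TE.neg e).code.length = e.code.length + 1 := by
  simp [TE.code]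

theorem len_and (e f : TE N) : (TE.and e f).code.length = e.code.length + f.code.length + 3 := by
  simp [TE.code]; omega

theorem len_or (e f : TE N) : (TE.or e f).code.length = e.code.length + f.code.length + 3 := by
  simp [TE.code]; omega

theorem len_conj (es : List (TE N)) (L : ℕ) (h : ∀ e ∈ es, e.code.length ≤ L) :
    (conj es).code.length ≤ es.length * (L + 3) + 8 := by
  induction es with
  | nil => simp [conj, tru, TE.code]
  | cons e es ih =>
    have h1 := ih (fun e he => h e (List.mem_cons_of_mem _ he))
    have h2 := h e List.mem_cons_self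
    rw [conj, len_and, List.length_cons]
    have : (es.length + 1) * (L + 3) = es.length * (L + 3) + (L + 3) := by ring
    omega

theorem len_disj (es : List (TE N)) (L : ℕ) (h : ∀ e ∈ es, e.code.length ≤ L) :
    (disj es).code.length ≤ es.length * (L + 3) + 8 := by
  induction es with
  | nil => simp [disj, fls, TE.code]
  | cons e es ih =>
    have h1 := ih (fun e he => h e (List.mem_cons_of_mem _ he))
    have h2 := h e List.mem_cons_self
    rw [disj, len_or, List.length_cons]
    have : (es.length + 1) * (L + 3) = es.length * (L + 3) + (L + 3) := by ring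
    omega

theorem len_lit (ds : List (Fin N ⊕ Bool)) (b : Bool) :
    (lit ds b).code.length ≤ ds.length + 3 := by
  cases b <;> simp [lit, TE.code]

theorem len_imp (e f : TE N) : (imp e f).code.length = e.code.length + f.code.length + 4 := by
  rw [imp, len_or, len_neg]; omega

theorem len_eqv (e f : TE N) :
    (eqv e f).code.length = 2 * e.code.length + 2 * f.code.length + 11 := by
  rw [eqv, len_or, len_and, len_and, len_neg, len_neg]; omega

/-- conjunction over a finite type -/
noncomputable def allT {α : Type} [Fintype α] (F : α → TE N) : TE N :=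
  conj ((Finset.univ : Finset α).toList.map F)

/-- disjunction over a finite type -/
noncomputable def exT {α : Type} [Fintype α] (F : α → TE N) : TE N :=
  disj ((Finset.univ : Finset α).toList.map F)

theorem ev_allT {α : Type} [Fintype α] (F : α → TE N) :
    (allT F).ev x v ↔ ∀ a, (F a).ev x v := by
  simp [allT, ev_conj]

theorem ev_exT {α : Type} [Fintype α] (F : α → TE N) :
    (exT F).ev x v ↔ ∃ a, (F a).ev x v := by
  simp [exT, ev_disj]

theorem len_allT {α : Type} [Fintype α] (F : α → TE N) (L : ℕ) (h : ∀ a, (F a).code.length ≤ L) :
    (allT F).code.length ≤ Fintype.card α * (L + 3) + 8 := by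
  have := len_conj ((Finset.univ : Finset α).toList.map F) L (by simpa using h)
  rw [List.length_map, Finset.length_toList, Finset.card_univ] at this
  exact this

theorem len_exT {α : Type} [Fintype α] (F : α → TE N) (L : ℕ) (h : ∀ a, (F a).code.length ≤ L) :
    (exT F).code.length ≤ Fintype.card α * (L + 3) + 8 := by
  have := len_disj ((Finset.univ : Finset α).toList.map F) L (by simpa using h)
  rw [List.length_map, Finset.length_toList, Finset.card_univ] at this
  exact this

end Pool.Agent.W952.Sat
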